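import Pool.Agent.Helper29.EV.Nf

/-!
# Markov windows

`K z i f` is the action of the letter `i` on functions of the state. With `ρ = ‖z‖`,
`a ^ 2 = ρ a + 1`, a bound `‖f D‖ ≤ B a ^ len D` gives `‖K z i f D‖ ≤ a B a ^ len D`, and for a long
enough word `v` a definite factor is gained, because two paths interfere.
-/

set_option autoImplicit false

namespace Pool.Agent.Helper29.EV

open Pool.Agent.Helper76.Conway.Top Polynomial

/-- one letter -/
noncomputable def K (z : ℂ) (i : ℕ) (f : (ℕ → ℕ) → ℂ) : (ℕ → ℕ) → ℂ :=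
  fun D => if D i < D (i + 1) then f (sw i D) else z * f D + f (sw i D)

/-- a word -/
noncomputable def Kw (z : ℂ) : List ℕ → ((ℕ → ℕ) → ℂ) → (ℕ → ℕ) → ℂ
  | [], f => f
  | i :: v, f => K z i (Kw z v f)

theorem Kw_append (z : ℂ) (u v : List ℕ) (f : (ℕ → ℕ) → ℂ) :
    Kw z (u ++ v) f = Kw z u (Kw z v f) := by
  induction u with
  | nil => rfl
  | cons i u ih => rw [List.cons_append, Kw, Kw, ih]

/-- the bound `B a ^ len D` -/
def Bnd (n : ℕ) (a B : ℝ) (f : (ℕ → ℕ) → ℂ) : Prop := ∀ D, Dis n D → ‖f D‖ ≤ B * a ^ len n D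

section

variable {n : ℕ} {z : ℂ} {a B : ℝ}

theorem a_ge (ha : 0 < a) (h : a ^ 2 = ‖z‖ * a + 1) : 1 ≤ a := by
  have := norm_nonneg z
  nlinarith

theorem a_inv (ha : 0 < a) (h : a ^ 2 = ‖z‖ * a + 1) : ‖z‖ + 1 / a = a := by
  field_simp
  linarith

theorem rho_lt (ha : 0 < a) (h : a ^ 2 = ‖z‖ * a + 1) : ‖z‖ < a := by
  have := a_inv ha h
  have : 0 < 1 / a := by positivity
  linarith

theorem K_bnd (h : a ^ 2 = ‖z‖ * a + 1) {f : (ℕ → ℕ) → ℂ}
    (hf : Bnd n a B f) {i : ℕ} (hi : i < n) : Bnd n a (a * B) (K z i f) := by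
  intro D hD
  unfold K
  split_ifs with hc
  · have := hf _ (hD.sw hi)
    rw [len_up hD hi hc] at this
    calc _ ≤ _ := this
      _ = a * B * a ^ len n D := by ring
  · have h1 := hf _ hD
    have h2 := hf _ (hD.sw hi)
    have h3 := len_down hD hi hc
    rw [h3] at h1 ⊢
    have h4 : ‖z * f D + f (sw i D)‖ ≤ ‖z‖ * ‖f D‖ + ‖f (sw i D)‖ :=
      (norm_add_le _ _).trans (by rw [norm_mul])
    have h5 := mul_le_mul_of_nonneg_left h1 (norm_nonneg z)
    have h6 : a * B * a ^ (len n (sw i D) + 1) = B * a ^ len n (sw i D) * (a ^ 2) := by ring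
    rw [h6, h]
    have h7 : ‖z‖ * (B * a ^ (len n (sw i D) + 1)) = B * a ^ len n (sw i D) * (‖z‖ * a) := by
      ring
    rw [h7] at h5
    nlinarith

theorem Kw_bnd (h : a ^ 2 = ‖z‖ * a + 1) {f : (ℕ → ℕ) → ℂ}
    (hf : Bnd n a B f) {v : List ℕ} (hv : ∀ i ∈ v, i < n) :
    Bnd n a (a ^ v.length * B) (Kw z v f) := by
  induction v with
  | nil => simpa [Kw] using hf
  | cons i v ih =>
    have h1 := ih fun j hj => hv j (by simp [hj])
    have h2 := K_bnd h h1 (hv i (by simp))
    rw [List.length_cons, pow_succ', mul_assoc]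
    exact h2

/-- extraction of the path which stays -/
theorem stay (ha : 0 < a) (h : a ^ 2 = ‖z‖ * a + 1) {g : (ℕ → ℕ) → ℂ}
    (hg : Bnd n a B g) {x : ℕ → ℕ} (hx : Dis n x) {u : List ℕ} (hu : ∀ i ∈ u, i < n)
    (hd : ∀ i ∈ u, ¬ x i < x (i + 1)) :
    ‖Kw z u g x - z ^ u.length * g x‖ ≤ (a ^ u.length - ‖z‖ ^ u.length) * (B * a ^ len n x) := by
  induction u with
  | nil => simp [Kw]
  | cons j u ih =>
    have h1 := ih (fun i hi => hu i (by simp [hi])) (fun i hi => hd i (by simp [hi]))
    have hj := hu j (by simp)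
    have hdj := hd j (by simp)
    have h2 := Kw_bnd h hg (v := u) (fun i hi => hu i (by simp [hi])) _ (hx.sw hj)
    have h3 := len_down hx hj hdj
    have e : Kw z (j :: u) g x - z ^ (j :: u).length * g x
        = z * (Kw z u g x - z ^ u.length * g x) + Kw z u g (sw j x) := by
      rw [Kw, K, if_neg hdj, List.length_cons, pow_succ]
      ring
    rw [e]
    refine (norm_add_le _ _).trans ?_
    rw [norm_mul]
    have h4 := mul_le_mul_of_nonneg_left h1 (norm_nonneg z)
    rw [List.length_cons]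
    have h5 : a ^ u.length * B * a ^ len n (sw j x) = a ^ u.length * (1 / a) * (B * a ^ len n x) := by
      rw [h3, pow_succ]; field_simp
    rw [h5] at h2
    have h6 := a_inv ha h
    have h7 : (a ^ (u.length + 1) - ‖z‖ ^ (u.length + 1)) * (B * a ^ len n x)
        = ‖z‖ * ((a ^ u.length - ‖z‖ ^ u.length) * (B * a ^ len n x))
          + a ^ u.length * (1 / a) * (B * a ^ len n x) := by
      have : a ^ (u.length + 1) = a ^ u.length * (‖z‖ + 1 / a) := by rw [h6]; ring
      rw [this]; ring
    rw [h7]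
    exact add_le_add h4 h2

/-- the loss by interference -/
noncomputable def del (z : ℂ) : ℝ := ‖z‖ ^ 2 + 1 - ‖z ^ 2 + 1‖

theorem del_nonneg : 0 ≤ del z := by
  unfold del
  have : ‖z ^ 2 + 1‖ ≤ ‖z ^ 2‖ + ‖(1 : ℂ)‖ := norm_add_le _ _
  rw [norm_pow, norm_one] at this
  linarith

/-- two equal letters with descents in between -/
theorem base (ha : 0 < a) (h : a ^ 2 = ‖z‖ * a + 1) (hB : 0 ≤ B) {f : (ℕ → ℕ) → ℂ}
    (hf : Bnd n a B f) {x : ℕ → ℕ} (hx : Dis n x) {i : ℕ} {u rest : List ℕ} (hi : i < n)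
    (hu : ∀ j ∈ u, j < n) (hr : ∀ j ∈ rest, j < n) (hiu : i ∉ u) (hdi : ¬ x i < x (i + 1))
    (hd : ∀ j ∈ u, ¬ x j < x (j + 1)) :
    ‖Kw z (i :: (u ++ i :: rest)) f x‖ ≤
      (a ^ (u.length + 2) - ‖z‖ ^ u.length * del z) * (a ^ rest.length * B * a ^ len n x) := by
  set hh := Kw z rest f with hhdef
  have hhb : Bnd n a (a ^ rest.length * B) hh := Kw_bnd h hf hr
  set H := a ^ rest.length * B with hH
  have hH0 : 0 ≤ H := by positivity
  have hgb : Bnd n a (a * H) (K z i hh) := K_bnd h hhb hi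
  have hxs := hx.sw hi
  have hl := len_down hx hi hdi
  have hasc : sw i x i < sw i x (i + 1) := by
    rw [asc_sw]
    have := ne_succ hx hi
    omega
  have hdu : ∀ j ∈ u, ¬ sw i x j < sw i x (j + 1) := fun j hj =>
    desc_keep hx hi (hu j hj) (fun e => hiu (e ▸ hj)) hdi (hd j hj)
  have s1 := stay ha h hgb hx hu hd
  have s2 := stay ha h hgb hxs hu hdu
  have e0 : Kw z (i :: (u ++ i :: rest)) f x
      = z * Kw z u (K z i hh) x + Kw z u (K z i hh) (sw i x) := by
    rw [Kw, K, if_neg hdi, Kw_append, Kw]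
  have e1 : K z i hh x = z * hh x + hh (sw i x) := by rw [K, if_neg hdi]
  have e2 : K z i hh (sw i x) = hh x := by rw [K, if_pos hasc, sw_sw]
  set P1 := Kw z u (K z i hh) x with hP1
  set P2 := Kw z u (K z i hh) (sw i x) with hP2
  have e3 : z * P1 + P2 = z ^ u.length * ((z ^ 2 + 1) * hh x + z * hh (sw i x))
      + z * (P1 - z ^ u.length * K z i hh x) + (P2 - z ^ u.length * K z i hh (sw i x)) := by
    rw [e1, e2]; ring
  rw [e0, e3]
  have n1 : ‖z ^ u.length * ((z ^ 2 + 1) * hh x + z * hh (sw i x))‖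
      ≤ ‖z‖ ^ u.length * (‖z ^ 2 + 1‖ * (H * a ^ len n x) + ‖z‖ * (H * a ^ len n (sw i x))) := by
    rw [norm_mul, norm_pow]
    refine mul_le_mul_of_nonneg_left ?_ (by positivity)
    refine (norm_add_le _ _).trans ?_
    rw [norm_mul, norm_mul]
    exact add_le_add (mul_le_mul_of_nonneg_left (hhb x hx) (norm_nonneg _))
      (mul_le_mul_of_nonneg_left (hhb _ hxs) (norm_nonneg _))
  have n2 : ‖z * (P1 - z ^ u.length * K z i hh x)‖
      ≤ ‖z‖ * ((a ^ u.length - ‖z‖ ^ u.length) * (a * H * a ^ len n x)) := by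
    rw [norm_mul]
    exact mul_le_mul_of_nonneg_left s1 (norm_nonneg _)
  refine (norm_add₃_le).trans ((add_le_add_three n1 n2 s2).trans (le_of_eq ?_))
  have h6 : ‖z ^ 2 + 1‖ = ‖z‖ ^ 2 + 1 - del z := by unfold del; ring
  have h8 : a ^ (u.length + 2) = a ^ u.length * a ^ 2 := by ring
  have h10 : a ^ (len n (sw i x) + 1) = a ^ len n (sw i x) * a := pow_succ _ _
  rw [h6, h8, hl, h10]
  have h9 : a ^ 2 = ‖z‖ * a + 1 := h
  generalize a ^ len n (sw i x) = L
  generalize a ^ u.length = A
  generalize ‖z‖ ^ u.length = Z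
  linear_combination (-(Z * H * L * (a + ‖z‖)) - (A - Z) * a * H * L) * h9

/-- the gain of a window -/
noncomputable def gain (z : ℂ) (a : ℝ) (m : ℕ) : ℝ := (‖z‖ / a) ^ m * (del z / a ^ 2)

theorem gain_nonneg (ha : 0 < a) (m : ℕ) : 0 ≤ gain z a m := by
  unfold gain
  have := del_nonneg (z := z)
  positivity

theorem gain_anti (ha : 0 < a) (h : a ^ 2 = ‖z‖ * a + 1) {m k : ℕ} (hmk : m ≤ k) :
    gain z a k ≤ gain z a m := by
  unfold gain
  have h1 := del_nonneg (z := z)
  refine mul_le_mul_of_nonneg_right ?_ (by positivity)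
  refine pow_le_pow_of_le_one (by positivity) ?_ hmk
  rw [div_le_one ha]
  exact (rho_lt ha h).le

/-- the gained bound at one state -/
def Gd (n : ℕ) (z : ℂ) (a B : ℝ) (f : (ℕ → ℕ) → ℂ) (v : List ℕ) (D : ℕ → ℕ) : Prop :=
  ‖Kw z v f D‖ ≤ (1 - gain z a v.length) * (a ^ v.length * B * a ^ len n D)

theorem base' (ha : 0 < a) (h : a ^ 2 = ‖z‖ * a + 1) (hB : 0 ≤ B) {f : (ℕ → ℕ) → ℂ}
    (hf : Bnd n a B f) {x : ℕ → ℕ} (hx : Dis n x) {i : ℕ} {u rest : List ℕ} (hi : i < n)
    (hu : ∀ j ∈ u, j < n) (hr : ∀ j ∈ rest, j < n) (hiu : i ∉ u) (hdi : ¬ x i < x (i + 1))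
    (hd : ∀ j ∈ u, ¬ x j < x (j + 1)) : Gd n z a B f (i :: (u ++ i :: rest)) x := by
  unfold Gd
  refine (base ha h hB hf hx hi hu hr hiu hdi hd).trans ?_
  have e : (i :: (u ++ i :: rest)).length = u.length + 2 + rest.length := by simp; omega
  have h1 : gain z a (i :: (u ++ i :: rest)).length ≤ gain z a u.length := by
    apply gain_anti ha h
    rw [e]; omega
  have h2 : 0 ≤ a ^ (i :: (u ++ i :: rest)).length * B * a ^ len n x := by positivity
  have h3 : (a ^ (u.length + 2) - ‖z‖ ^ u.length * del z) * (a ^ rest.length * B * a ^ len n x)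
      = (1 - gain z a u.length) * (a ^ (i :: (u ++ i :: rest)).length * B * a ^ len n x) := by
    rw [e]
    unfold gain
    have := pow_ne_zero u.length ha.ne'
    rw [div_pow]
    field_simp
    ring
  rw [h3]
  refine mul_le_mul_of_nonneg_right ?_ h2
  linarith

/-- the gain passes a stay -/
theorem Gd.stay (ha : 0 < a) (h : a ^ 2 = ‖z‖ * a + 1) {f : (ℕ → ℕ) → ℂ}
    (hf : Bnd n a B f) {x : ℕ → ℕ} (hx : Dis n x) {i : ℕ} {v : List ℕ} (hi : i < n)
    (hv : ∀ j ∈ v, j < n) (hdi : ¬ x i < x (i + 1)) (hg : Gd n z a B f v x) :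
    Gd n z a B f (i :: v) x := by
  unfold Gd at hg ⊢
  have h1 := Kw_bnd h hf hv _ (hx.sw hi)
  have hl := len_down hx hi hdi
  rw [Kw, K, if_neg hdi]
  refine (norm_add_le _ _).trans ?_
  rw [norm_mul]
  have h2 := mul_le_mul_of_nonneg_left hg (norm_nonneg z)
  have h10 : a ^ (len n (sw i x) + 1) = a ^ len n (sw i x) * a := pow_succ _ _
  have hga : gain z a (i :: v).length * a = gain z a v.length * ‖z‖ := by
    rw [List.length_cons]
    unfold gain
    rw [pow_succ]
    field_simp
  have h11 : a ^ (i :: v).length = a ^ v.length * a := by rw [List.length_cons, pow_succ]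
  rw [h11, hl, h10]
  rw [hl, h10] at h2
  refine (add_le_add h2 h1).trans (le_of_eq ?_)
  generalize a ^ len n (sw i x) = L
  generalize a ^ v.length = A
  generalize gain z a (i :: v).length = g1 at *
  generalize gain z a v.length = g2 at *
  have h9 : a ^ 2 = ‖z‖ * a + 1 := h
  linear_combination (-(A * B * L)) * h9 + A * B * L * a * hga

/-- the gain passes an ascent -/
theorem Gd.up (ha : 0 < a) (h : a ^ 2 = ‖z‖ * a + 1) (hB : 0 ≤ B) {f : (ℕ → ℕ) → ℂ}
    {x : ℕ → ℕ} (hx : Dis n x) {i : ℕ} {v : List ℕ} (hi : i < n)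
    (hai : x i < x (i + 1)) (hg : Gd n z a B f v (sw i x)) :
    Gd n z a B f (i :: v) x := by
  unfold Gd at hg ⊢
  rw [Kw, K, if_pos hai]
  refine hg.trans ?_
  have hl := len_up hx hi hai
  have h1 : gain z a (i :: v).length ≤ gain z a v.length := by
    apply gain_anti ha h
    simp
  have e : a ^ v.length * B * a ^ len n (sw i x) = a ^ (i :: v).length * B * a ^ len n x := by
    rw [hl, List.length_cons]; ring
  rw [e]
  refine mul_le_mul_of_nonneg_right ?_ (by positivity)
  linarith

theorem Gd.stays (ha : 0 < a) (h : a ^ 2 = ‖z‖ * a + 1) {f : (ℕ → ℕ) → ℂ}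
    (hf : Bnd n a B f) {x : ℕ → ℕ} (hx : Dis n x) {u v : List ℕ} (hu : ∀ j ∈ u, j < n)
    (hv : ∀ j ∈ v, j < n) (hd : ∀ j ∈ u, ¬ x j < x (j + 1)) (hg : Gd n z a B f v x) :
    Gd n z a B f (u ++ v) x := by
  induction u with
  | nil => exact hg
  | cons i u ih =>
    refine Gd.stay ha h hf hx (hu i (by simp)) ?_ (hd i (by simp))
      (ih (fun j hj => hu j (by simp [hj])) (fun j hj => hd j (by simp [hj])))
    intro j hj
    rcases List.mem_append.1 hj with hj | hj
    · exact hu j (by simp [hj])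
    · exact hv j hj

/-- a word with more letters than the alphabet has two equal letters without the same letter in
between -/
theorem exists_repeat : ∀ (n : ℕ) (v : List ℕ), (∀ j ∈ v, j < n) → n < v.length →
    ∃ v1 i u v2, v = v1 ++ i :: (u ++ i :: v2) ∧ i ∉ u := by
  intro n v hv hn
  have hnd : ¬ v.Nodup := by
    intro hnd
    have h1 : v.toFinset ⊆ Finset.range n := fun j hj => by
      rw [Finset.mem_range]; exact hv j (List.mem_toFinset.1 hj)
    have h2 := Finset.card_le_card h1
    rw [List.toFinset_card_of_nodup hnd, Finset.card_range] at h2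
    omega
  clear hn hv
  induction v with
  | nil => exact absurd List.nodup_nil hnd
  | cons i v ih =>
    by_cases hi : i ∈ v
    · obtain ⟨u, v2, rfl, hu⟩ := split_first hi
      exact ⟨[], i, u, v2, rfl, hu⟩
    · have : ¬ v.Nodup := fun h => hnd (List.nodup_cons.2 ⟨hi, h⟩)
      obtain ⟨v1, j, u, v2, rfl, hu⟩ := ih this
      exact ⟨i :: v1, j, u, v2, rfl, hu⟩

/-- **window lemma** -/
theorem window (ha : 0 < a) (h : a ^ 2 = ‖z‖ * a + 1) (hB : 0 ≤ B) {f : (ℕ → ℕ) → ℂ}
    (hf : Bnd n a B f) : ∀ (r : ℕ) (x : ℕ → ℕ) (v : List ℕ), Dis n x →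
    n * (n + 1) / 2 ≤ len n x + r → (∀ j ∈ v, j < n) → (r + 1) * (n + 1) ≤ v.length →
    Gd n z a B f v x := by
  intro r
  induction r with
  | zero =>
    intro x v hx hl hv hlen
    have hmax : len n x = n * (n + 1) / 2 := by
      have := len_le n x
      omega
    have hd : ∀ j ∈ v, ¬ x j < x (j + 1) := by
      intro j hj hc
      have h1 := len_up hx (hv j hj) hc
      have h2 := len_le n (sw j x)
      omega
    obtain ⟨v1, i, u, v2, rfl, hiu⟩ := exists_repeat n v hv (by omega)
    refine Gd.stays ha h hf hx (fun j hj => hv j (by simp [hj])) (fun j hj => hv j (by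
      simp only [List.mem_append, List.mem_cons] at hj ⊢; tauto)) (fun j hj => hd j (by simp [hj])) ?_
    exact base' ha h hB hf hx (hv i (by simp)) (fun j hj => hv j (by simp [hj]))
      (fun j hj => hv j (by simp [hj])) hiu (hd i (by simp)) (fun j hj => hd j (by simp [hj]))
  | succ r ih =>
    intro x v hx hl hv hlen
    by_cases hall : ∀ j ∈ v.take (n + 1), ¬ x j < x (j + 1)
    · -- a repeated letter in the first block
      have hv' : ∀ j ∈ v.take (n + 1), j < n := fun j hj => hv j (List.mem_of_mem_take hj)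
      have hlt : (v.take (n + 1)).length = n + 1 := by
        rw [List.length_take]
        have : (r + 1 + 1) * (n + 1) = (r + 1) * (n + 1) + (n + 1) := by ring
        omega
      obtain ⟨v1, i, u, v2, he, hiu⟩ := exists_repeat n (v.take (n + 1)) hv' (by omega)
      have hv2 : v = v1 ++ i :: (u ++ i :: (v2 ++ v.drop (n + 1))) := by
        conv_lhs => rw [← List.take_append_drop (n + 1) v, he]
        simp
      rw [he] at hall hv'
      have hdrop : ∀ j ∈ v.drop (n + 1), j < n := fun j hj => hv j (List.mem_of_mem_drop hj)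
      rw [hv2]
      refine Gd.stays ha h hf hx (fun j hj => hv' j (by simp [hj])) (fun j hj => ?_)
        (fun j hj => hall j (by simp [hj])) ?_
      · rw [hv2] at hv
        exact hv j (by simp only [List.mem_append, List.mem_cons] at hj ⊢; tauto)
      · refine base' ha h hB hf hx (hv' i (by simp)) (fun j hj => hv' j (by simp [hj])) ?_ hiu
          (hall i (by simp)) (fun j hj => hall j (by simp [hj]))
        intro j hj
        rcases List.mem_append.1 hj with hj | hj
        · exact hv' j (by simp [hj])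
        · exact hdrop j hj
    · -- the first ascent
      push Not at hall
      obtain ⟨v1, i, v2, he, hd1, hai⟩ : ∃ v1 i v2, v.take (n + 1) = v1 ++ i :: v2 ∧
          (∀ j ∈ v1, ¬ x j < x (j + 1)) ∧ x i < x (i + 1) := by
        generalize v.take (n + 1) = t at hall
        induction t with
        | nil => obtain ⟨j, hj, _⟩ := hall; simp at hj
        | cons c t iht =>
          by_cases hc : x c < x (c + 1)
          · exact ⟨[], c, t, rfl, by simp, hc⟩
          · obtain ⟨j, hj, hj2⟩ := hall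
            have hjt : j ∈ t := by
              rcases List.mem_cons.1 hj with h | h
              · subst h; exact absurd hj2 hc
              · exact h
            obtain ⟨v1, i, v2, h1, h2, h3⟩ := iht ⟨j, hjt, hj2⟩
            refine ⟨c :: v1, i, v2, by rw [h1]; rfl, ?_, h3⟩
            intro k hk
            rcases List.mem_cons.1 hk with h | h
            · subst h; exact hc
            · exact h2 k h
      have hv2 : v = v1 ++ i :: (v2 ++ v.drop (n + 1)) := by
        conv_lhs => rw [← List.take_append_drop (n + 1) v, he]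
        simp
      have hl1 : v1.length + 1 + v2.length ≤ n + 1 := by
        have := congrArg List.length he
        rw [List.length_take] at this
        simp at this
        omega
      rw [hv2]
      rw [hv2] at hv hlen
      have hi : i < n := hv i (by simp)
      refine Gd.stays ha h hf hx (fun j hj => hv j (by simp [hj])) (fun j hj => ?_) hd1 ?_
      · exact hv j (by simp only [List.mem_append, List.mem_cons] at hj ⊢; tauto)
      · refine Gd.up ha h hB hx hi hai (ih _ _ (hx.sw hi) ?_ ?_ ?_)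
        · rw [len_up hx hi hai]; omega
        · intro j hj
          exact hv j (by simp only [List.mem_append, List.mem_cons] at hj ⊢; tauto)
        · have : (r + 1 + 1) * (n + 1) = (r + 1) * (n + 1) + (n + 1) := by ring
          simp only [List.length_append, List.length_cons] at hlen ⊢
          omega

end

end Pool.Agent.Helper29.EV
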