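import Pool.Agent.Helper76.Conway.TopMk

/-!
# Normal forms of permutation braids

A state is a function `D : ℕ → ℕ`, injective on `{0, …, n}`; only its order pattern matters.
`nf n D` is a positive word with letters `< n` (the staircase normal form of the permutation braid
sorting `D`). If `D i < D (i + 1)` (an ascent) then `nf n D ++ [i]` is equivalent to
`nf n (sw i D)`, `sw i D` being `D` with the values at `i`, `i + 1` exchanged.
-/

set_option autoImplicit false

namespace Pool.Agent.Helper29.EV

open Pool.Agent.Helper76.Conway.Top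

/-- exchange the values at `i` and `i + 1` -/
def sw (i : ℕ) (D : ℕ → ℕ) : ℕ → ℕ := fun j => if j = i then D (i + 1) else if j = i + 1 then D i else D j

/-- the values at `0, …, n` are distinct -/
def Dis (n : ℕ) (D : ℕ → ℕ) : Prop := ∀ i j, i ≤ n → j ≤ n → D i = D j → i = j

theorem sw_sw (i : ℕ) (D : ℕ → ℕ) : sw i (sw i D) = D := by
  funext j
  simp only [sw]
  split_ifs <;> first | rfl | (subst_vars; rfl) | (subst_vars; simp_all)

theorem sw_i (i : ℕ) (D : ℕ → ℕ) : sw i D i = D (i + 1) := by simp [sw]
theorem sw_i1 (i : ℕ) (D : ℕ → ℕ) : sw i D (i + 1) = D i := by simp [sw]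
theorem sw_ne (i : ℕ) (D : ℕ → ℕ) {j : ℕ} (h1 : j ≠ i) (h2 : j ≠ i + 1) : sw i D j = D j := by
  simp [sw, h1, h2]

theorem Dis.sw {n : ℕ} {D : ℕ → ℕ} (h : Dis n D) {i : ℕ} (hi : i < n) : Dis n (sw i D) := by
  intro a b ha hb hab
  simp only [EV.sw] at hab
  split_ifs at hab with h1 h2 h3 h4 h5 h6 h7 h8
  · omega
  · have := h _ _ (by omega) (by omega) hab; omega
  · have := h _ _ (by omega) (by omega) hab; omega
  · have := h _ _ (by omega) (by omega) hab; omega
  · omega
  · have := h _ _ (by omega) (by omega) hab; omega
  · have := h _ _ (by omega) (by omega) hab; omega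
  · have := h _ _ (by omega) (by omega) hab; omega
  · exact h _ _ ha hb hab

/-- position of the maximum among `0, …, n` -/
def mx : ℕ → (ℕ → ℕ) → ℕ
  | 0, _ => 0
  | n + 1, D => if D (mx n D) < D (n + 1) then n + 1 else mx n D

theorem mx_le (n : ℕ) (D : ℕ → ℕ) : mx n D ≤ n := by
  induction n with
  | zero => exact le_rfl
  | succ n ih =>
    simp only [mx]
    split_ifs <;> omega

theorem le_mx (n : ℕ) (D : ℕ → ℕ) : ∀ j ≤ n, D j ≤ D (mx n D) := by
  induction n with
  | zero => intro j hj; rw [Nat.le_zero.1 hj]; rfl
  | succ n ih =>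
    intro j hj
    simp only [mx]
    rcases Nat.lt_or_ge n j with h | h
    · have e : j = n + 1 := by omega
      subst e
      split_ifs <;> omega
    · have := ih j h
      split_ifs <;> omega

theorem mx_unique {n : ℕ} {D : ℕ → ℕ} (h : Dis n D) {p : ℕ} (hp : p ≤ n)
    (hm : ∀ j ≤ n, D j ≤ D p) : mx n D = p := by
  have h1 := le_mx n D p hp
  have h2 := hm _ (mx_le n D)
  exact h _ _ (mx_le n D) hp (by omega)

/-- remove position `p` -/
def rm (p : ℕ) (D : ℕ → ℕ) : ℕ → ℕ := fun j => if j < p then D j else D (j + 1)

theorem Dis.rm {n : ℕ} {D : ℕ → ℕ} (h : Dis (n + 1) D) (p : ℕ) : Dis n (rm p D) := by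
  intro a b ha hb hab
  simp only [EV.rm] at hab
  split_ifs at hab
  · have := h _ _ (by omega) (by omega) hab; omega
  · have := h _ _ (by omega) (by omega) hab; omega
  · have := h _ _ (by omega) (by omega) hab; omega
  · have := h _ _ (by omega) (by omega) hab; omega

/-- the word `p + k - 1, …, p + 1, p` -/
def dn (p : ℕ) : ℕ → List ℕ
  | 0 => []
  | k + 1 => (p + k) :: dn p k

theorem dn_succ' (p k : ℕ) : dn p (k + 1) = dn (p + 1) k ++ [p] := by
  induction k with
  | zero => simp [dn]
  | succ k ih =>
    rw [dn, ih, dn, List.cons_append]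
    congr 1
    omega

theorem mem_dn {p k a : ℕ} (h : a ∈ dn p k) : p ≤ a ∧ a < p + k := by
  induction k with
  | zero => simp [dn] at h
  | succ k ih =>
    rw [dn, List.mem_cons] at h
    rcases h with h | h
    · omega
    · have := ih h; omega

theorem dn_length (p k : ℕ) : (dn p k).length = k := by
  induction k with
  | zero => rfl
  | succ k ih => rw [dn, List.length_cons, ih]

/-- the normal form -/
def nf : ℕ → (ℕ → ℕ) → List ℕ
  | 0, _ => []
  | n + 1, D => nf n (rm (mx (n + 1) D) D) ++ dn (mx (n + 1) D) (n + 1 - mx (n + 1) D)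

theorem mem_nf {n : ℕ} : ∀ {D : ℕ → ℕ} {a : ℕ}, a ∈ nf n D → a < n := by
  induction n with
  | zero => intro D a h; simp [nf] at h
  | succ n ih =>
    intro D a h
    rw [nf, List.mem_append] at h
    rcases h with h | h
    · have := ih h; omega
    · have := mem_dn h
      have := mx_le (n + 1) D
      omega

theorem nf_length_le (n : ℕ) : ∀ D : ℕ → ℕ, (nf n D).length ≤ n * (n + 1) / 2 := by
  induction n with
  | zero => intro D; simp [nf]
  | succ n ih =>
    intro D
    rw [nf, List.length_append, dn_length]
    have := ih (rm (mx (n + 1) D) D)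
    have e : (n + 1) * (n + 1 + 1) = n * (n + 1) + 2 * (n + 1) := by ring
    omega

/-! ### passing a letter through a run -/

theorem pass_small {m i : ℕ} (u : List ℕ) (hu : ∀ a ∈ u, i + 2 ≤ a ∧ a < m) :
    Eqv m (u ++ [i]) (i :: u) := by
  induction u with
  | nil => exact Eqv.refl _
  | cons a u ih =>
    have h1 := (Eqv.comm [] u i a (hu a (by simp)).1 (hu a (by simp)).2).symm
    have h2 := (ih (fun b hb => hu b (by simp [hb]))).ctx [a] []
    simp only [List.append_nil, List.singleton_append] at h2
    exact h2.trans h1

/-- `s_{p+k-1} … s_p s_i = s_{i-1} s_{p+k-1} … s_p` for `p < i < p + k` -/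
theorem pass_run {m p k i : ℕ} (h1 : p < i) (h2 : i < p + k) (hm : p + k ≤ m) :
    Eqv m (dn p k ++ [i]) ((i - 1) :: dn p k) := by
  induction k with
  | zero => omega
  | succ k ih =>
    rcases Nat.lt_or_ge i (p + k) with h | h
    · have h3 := (ih h (by omega)).ctx [p + k] []
      simp only [List.append_nil, List.singleton_append] at h3
      refine Eqv.trans (v := (p + k) :: (i - 1) :: dn p k) ?_ ?_
      · exact h3
      · have := (Eqv.comm (n := m) [] (dn p k) (i - 1) (p + k) (by omega) (by omega)).symm
        exact this
    · have hi : i = p + k := by omega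
      subst hi
      obtain ⟨k, rfl⟩ : ∃ k', k = k' + 1 := ⟨k - 1, by omega⟩
      -- run = (p+k+1), (p+k), rest ; letter p+k+1
      have h3 : Eqv m (dn p k ++ [p + (k + 1)]) ((p + (k + 1)) :: dn p k) := by
        have := eqv_pass (n := m) (j := p + (k + 1)) (by omega) (dn p k)
          (fun a ha => by have := mem_dn ha; omega)
        exact this.symm
      have h4 := h3.ctx [p + (k + 1), p + k] []
      simp only [List.append_nil, List.cons_append, List.nil_append] at h4
      refine Eqv.trans (v := (p + (k + 1)) :: (p + k) :: (p + (k + 1)) :: dn p k) ?_ ?_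
      · exact h4
      · have h5 := (Eqv.braid (n := m) [] (dn p k) (p + k) (by omega)).symm
        have e : p + (k + 1) - 1 = p + k := by omega
        rw [e]
        exact h5

/-! ### the ascent rule -/

theorem nf_up (n : ℕ) : ∀ {D : ℕ → ℕ} {i : ℕ}, Dis n D → i < n → D i < D (i + 1) →
    Eqv n (nf n D ++ [i]) (nf n (sw i D)) := by
  induction n with
  | zero => intro D i _ hi; omega
  | succ n ih =>
    intro D i hD hi hasc
    have hp := mx_le (n + 1) D
    have hmax := le_mx (n + 1) D
    set p := mx (n + 1) D with hpdef
    have hip : i ≠ p := by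
      intro h
      have := hmax (i + 1) (by omega)
      rw [← h] at this
      omega
    have hunf : nf (n + 1) D = nf n (rm p D) ++ dn p (n + 1 - p) := by rw [nf, hpdef]
    rcases Nat.lt_trichotomy (i + 1) p with h | h | h
    · -- the letter is far to the left
      have hmx : mx (n + 1) (sw i D) = p := by
        refine mx_unique (hD.sw hi) hp ?_
        intro j hj
        rw [sw_ne i D (j := p) (by omega) (by omega)]
        unfold sw
        split_ifs
        · exact hmax _ (by omega)
        · exact hmax _ (by omega)
        · exact hmax _ hj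
      have hrm : rm p (sw i D) = sw i (rm p D) := by
        funext j
        simp only [rm, sw]
        split_ifs <;> first | rfl | omega
      have hunf' : nf (n + 1) (sw i D) = nf n (sw i (rm p D)) ++ dn p (n + 1 - p) := by
        rw [nf, hmx, hrm]
      rw [hunf, hunf']
      have h1 := ih (hD.rm p) (i := i) (by omega) (by simp only [rm]; split_ifs <;> omega)
      have h2 := (pass_small (m := n + 1) (i := i) (dn p (n + 1 - p)) (fun a ha => by
        have := mem_dn ha; omega)).ctx (nf n (rm p D)) []
      have h3 := h1.lift.ctx [] (dn p (n + 1 - p))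
      simp only [List.append_nil, List.nil_append, List.append_assoc, List.singleton_append]
        at h2 h3 ⊢
      exact h2.trans h3
    · -- the letter extends the run
      have hmx : mx (n + 1) (sw i D) = i := by
        refine mx_unique (hD.sw hi) (by omega) ?_
        intro j hj
        rw [sw_i, h]
        unfold sw
        split_ifs
        · exact hmax _ (by omega)
        · exact hmax _ (by omega)
        · exact hmax _ hj
      have hrm : rm i (sw i D) = rm p D := by
        funext j
        simp only [rm, sw, ← h]
        split_ifs <;> first | rfl | omega | (congr 1; omega)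
      rw [hunf, nf, hmx, hrm]
      have e : n + 1 - i = (n + 1 - p) + 1 := by omega
      rw [e, dn_succ', h, List.append_assoc]
      exact Eqv.refl _
    · -- the letter passes the run
      have hpi : p < i := by omega
      have hmx : mx (n + 1) (sw i D) = p := by
        refine mx_unique (hD.sw hi) hp ?_
        intro j hj
        rw [sw_ne i D (j := p) (by omega) (by omega)]
        unfold sw
        split_ifs
        · exact hmax _ (by omega)
        · exact hmax _ (by omega)
        · exact hmax _ hj
      have hrm : rm p (sw i D) = sw (i - 1) (rm p D) := by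
        funext j
        simp only [rm, sw]
        have e : i - 1 + 1 = i := by omega
        rw [e]
        split_ifs <;> first | rfl | omega | (congr 1; omega)
      have hunf' : nf (n + 1) (sw i D) = nf n (sw (i - 1) (rm p D)) ++ dn p (n + 1 - p) := by
        rw [nf, hmx, hrm]
      rw [hunf, hunf']
      have h1 := ih (hD.rm p) (i := i - 1) (by omega) (by
        have e : i - 1 + 1 = i := by omega
        rw [e]
        simp only [rm]
        split_ifs <;> first | omega | (rw [e]; omega))
      have h2 := (pass_run (m := n + 1) (p := p) (k := n + 1 - p) (i := i) hpi (by omega)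
        (by omega)).ctx (nf n (rm p D)) []
      have h3 := h1.lift.ctx [] (dn p (n + 1 - p))
      simp only [List.append_nil, List.nil_append, List.append_assoc, List.singleton_append]
        at h2 h3 ⊢
      exact h2.trans h3

/-! ### length -/

/-- the length of the normal form -/
def len (n : ℕ) (D : ℕ → ℕ) : ℕ := (nf n D).length

theorem len_up {n i : ℕ} {D : ℕ → ℕ} (hD : Dis n D) (hi : i < n) (h : D i < D (i + 1)) :
    len n (sw i D) = len n D + 1 := by
  have := (nf_up n hD hi h).length_eq
  rw [List.length_append, List.length_singleton] at this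
  exact this.symm

theorem ne_succ {n i : ℕ} {D : ℕ → ℕ} (hD : Dis n D) (hi : i < n) : D i ≠ D (i + 1) := by
  intro h
  have := hD _ _ (by omega) (by omega) h
  omega

theorem asc_sw {i : ℕ} {D : ℕ → ℕ} : sw i D i < sw i D (i + 1) ↔ D (i + 1) < D i := by
  rw [sw_i, sw_i1]

theorem len_down {n i : ℕ} {D : ℕ → ℕ} (hD : Dis n D) (hi : i < n) (h : ¬ D i < D (i + 1)) :
    len n D = len n (sw i D) + 1 := by
  have h1 : D (i + 1) < D i := by
    have := ne_succ hD hi
    omega
  have := len_up (hD.sw hi) hi (asc_sw.2 h1)
  rwa [sw_sw] at this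

theorem len_le (n : ℕ) (D : ℕ → ℕ) : len n D ≤ n * (n + 1) / 2 := nf_length_le n D

/-- two descents: going down at one of them keeps the other -/
theorem desc_keep {n i j : ℕ} {D : ℕ → ℕ} (hD : Dis n D) (hi : i < n) (hj : j < n) (hij : i ≠ j)
    (h1 : ¬ D i < D (i + 1)) (h2 : ¬ D j < D (j + 1)) : ¬ sw i D j < sw i D (j + 1) := by
  have h3 := ne_succ hD hi
  have h4 := ne_succ hD hj
  rcases Nat.lt_trichotomy (j + 1) i with h | h | h
  · rw [sw_ne i D (by omega) (by omega), sw_ne i D (by omega) (by omega)]
    exact h2
  · subst h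
    rw [sw_i, sw_ne (j + 1) D (by omega) (by omega)]
    omega
  · rcases Nat.lt_trichotomy j (i + 1) with h' | h' | h'
    · omega
    · subst h'
      rw [sw_i1, sw_ne i D (by omega) (by omega)]
      omega
    · rw [sw_ne i D (by omega) (by omega), sw_ne i D (by omega) (by omega)]
      exact h2

end Pool.Agent.Helper29.EV
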