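import Pool.Agent.Helper29.EV.Mark

/-!
# The tail bound for the Conway polynomial of positive braids

`markov_tail`: for `‖z‖` in a compact subset of `(0, ∞)` the Conway polynomial of the closure of a
positive word `w` satisfies `‖∇(z)‖ ≤ C a ^ |w| exp (- c |w| (1 - cos (2 arg z)))`,
`a ^ 2 = ‖z‖ a + 1`.
-/

set_option autoImplicit false

namespace Pool.Agent.Helper29.EV

open Pool.Agent.Helper76.Conway.Top Polynomial

section

variable {n : ℕ} {z : ℂ} {a B : ℝ}

/-- the length of a window -/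
def L0 (n : ℕ) : ℕ := (n * (n + 1) / 2 + 1) * (n + 1)

theorem L0_pos (n : ℕ) : 0 < L0 n := by unfold L0; positivity

theorem gain_le_one (ha : 0 < a) (h : a ^ 2 = ‖z‖ * a + 1) (m : ℕ) : gain z a m ≤ 1 := by
  unfold gain
  have h1 : del z ≤ a ^ 2 := by
    unfold del
    have := norm_nonneg (z ^ 2 + 1)
    have := rho_lt ha h
    have := norm_nonneg z
    nlinarith
  have h2 : (‖z‖ / a) ^ m ≤ 1 := by
    refine pow_le_one₀ (by positivity) ?_
    rw [div_le_one ha]
    exact (rho_lt ha h).le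
  have h3 : del z / a ^ 2 ≤ 1 := by
    rw [div_le_one (by positivity)]; exact h1
  have := del_nonneg (z := z)
  exact mul_le_one₀ h2 (by positivity) h3

theorem windows (ha : 0 < a) (h : a ^ 2 = ‖z‖ * a + 1) (hB : 0 ≤ B) {f : (ℕ → ℕ) → ℂ}
    (hf : Bnd n a B f) : ∀ (k : ℕ) (w : List ℕ), (∀ j ∈ w, j < n) → k * L0 n ≤ w.length →
    Bnd n a ((1 - gain z a (L0 n)) ^ k * (a ^ w.length * B)) (Kw z w f) := by
  intro k
  induction k with
  | zero =>
    intro w hw _
    rw [pow_zero, one_mul]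
    exact Kw_bnd h hf hw
  | succ k ih =>
    intro w hw hk
    have e : (k + 1) * L0 n = k * L0 n + L0 n := by ring
    have h1 := ih (w.drop (L0 n)) (fun j hj => hw j (List.mem_of_mem_drop hj)) (by
      rw [List.length_drop]; omega)
    have hg1 := gain_le_one ha h (L0 n)
    have hlen : (w.take (L0 n)).length = L0 n := by
      rw [List.length_take]; omega
    intro x hx
    have hB' : 0 ≤ (1 - gain z a (L0 n)) ^ k * (a ^ (w.drop (L0 n)).length * B) := by
      have : 0 ≤ 1 - gain z a (L0 n) := by linarith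
      positivity
    have h2 := window ha h hB' h1 (n * (n + 1) / 2) x (w.take (L0 n)) hx (by omega)
      (fun j hj => hw j (List.mem_of_mem_take hj)) (by rw [hlen, L0])
    unfold Gd at h2
    rw [← Kw_append, List.take_append_drop, hlen] at h2
    refine h2.trans (le_of_eq ?_)
    have e2 : w.length = L0 n + (w.drop (L0 n)).length := by
      rw [List.length_drop]; omega
    rw [e2, pow_add a, pow_succ]
    ring

/-! ### a monotone state -/

theorem mx_mono (n : ℕ) {D : ℕ → ℕ} (h : ∀ i < n, D i < D (i + 1)) : mx n D = n := by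
  induction n with
  | zero => rfl
  | succ n ih =>
    rw [mx, ih fun i hi => h i (by omega), if_pos (h n (by omega))]

theorem nf_mono (n : ℕ) : ∀ {D : ℕ → ℕ}, (∀ i < n, D i < D (i + 1)) → nf n D = [] := by
  induction n with
  | zero => intro D _; rfl
  | succ n ih =>
    intro D h
    rw [nf, mx_mono (n + 1) h, Nat.sub_self, dn, List.append_nil]
    refine ih fun i hi => ?_
    simp only [rm]
    rw [if_pos (by omega), if_pos (by omega)]
    exact h i (by omega)

theorem dis_id (n : ℕ) : Dis n (fun j => j) := fun _ _ _ _ h => h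

theorem len_id (n : ℕ) : len n (fun j => j) = 0 := by
  rw [len, nf_mono n (fun i _ => by omega)]; rfl

end

section

variable {G : ℕ → Type} [∀ n, Group (G n)] {s : ∀ n, ℕ → G n} {N : ∀ n, G n → ℤ[X]}

/-- the value at the normal form followed by a word -/
noncomputable def Fz (s : ∀ n, ℕ → G n) (N : ∀ n, G n → ℤ[X]) (n : ℕ) (z : ℂ) (w : List ℕ)
    (D : ℕ → ℕ) : ℂ := aeval z (N n (V (s n) (nf n D ++ w)))

theorem Fz_eq (h : Mk G s N) {n : ℕ} (z : ℂ) (w : List ℕ) : ∀ (v : List ℕ), (∀ i ∈ v, i < n) →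
    ∀ D, Dis n D → Fz s N n z (v ++ w) D = Kw z v (Fz s N n z w) D := by
  intro v
  induction v with
  | nil => intro _ D _; rfl
  | cons i v ih =>
    intro hv D hD
    have hi := hv i (by simp)
    have ih' := ih fun j hj => hv j (by simp [hj])
    rw [Kw, K]
    split_ifs with hc
    · rw [← ih' _ (hD.sw hi)]
      unfold Fz
      have e := ((nf_up n hD hi hc).ctx [] (v ++ w))
      have := h.V_eqv e
      simp only [List.nil_append, List.append_assoc, List.singleton_append] at this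
      rw [List.cons_append, this]
    · rw [← ih' _ hD, ← ih' _ (hD.sw hi)]
      unfold Fz
      have hD' := hD.sw hi
      have hc' : sw i D i < sw i D (i + 1) := by
        rw [asc_sw]
        have := ne_succ hD hi
        omega
      have e1 := (nf_up n hD' hi hc')
      rw [sw_sw] at e1
      have e2 := h.V_eqv ((e1.ctx [] (i :: (v ++ w))))
      have e3 := h.V_eqv ((e1.ctx [] (v ++ w)))
      simp only [List.nil_append, List.append_assoc, List.singleton_append] at e2 e3
      rw [List.cons_append, ← e2, ← e3, h.quad_word hi, map_add, map_mul, aeval_X]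
      ring

/-- words of bounded length over a finite alphabet -/
theorem finite_words (n m : ℕ) : {l : List ℕ | l.length ≤ m ∧ ∀ a ∈ l, a < n}.Finite := by
  have h1 : {l : List (Fin n) | l.length ≤ m}.Finite := List.finite_length_le _ _
  refine (h1.image (fun l => l.map (fun i : Fin n => (i : ℕ)))).subset ?_
  intro l hl
  refine ⟨l.pmap (fun a h => (⟨a, h⟩ : Fin n)) hl.2, ?_, ?_⟩
  · rw [Set.mem_ofPred_eq, List.length_pmap]; exact hl.1
  · simp only [List.map_pmap]
    exact List.pmap_eq_self.2 (by simp)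

theorem norm_aeval_le (P : ℤ[X]) {z : ℂ} {R : ℝ} (hz : ‖z‖ ≤ R) :
    ‖aeval z P‖ ≤ ∑ i ∈ P.support, |(P.coeff i : ℝ)| * R ^ i := by
  rw [aeval_def, eval₂_eq_sum, sum_def]
  refine (norm_sum_le _ _).trans (Finset.sum_le_sum fun i _ => ?_)
  rw [norm_mul, norm_pow]
  have h1 : ‖(algebraMap ℤ ℂ) (P.coeff i)‖ = |(P.coeff i : ℝ)| := by
    simp
  rw [h1]
  exact mul_le_mul_of_nonneg_left (pow_le_pow_left₀ (norm_nonneg _) hz i) (abs_nonneg _)

/-- the values at the normal forms are bounded -/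
theorem base_bound (s : ∀ n, ℕ → G n) (N : ∀ n, G n → ℤ[X]) (n : ℕ) (R : ℝ) :
    ∃ C : ℝ, 0 < C ∧ ∀ (z : ℂ), ‖z‖ ≤ R → ∀ D, ‖aeval z (N n (V (s n) (nf n D)))‖ ≤ C := by
  set g : List ℕ → ℝ := fun u => ∑ i ∈ (N n (V (s n) u)).support,
    |((N n (V (s n) u)).coeff i : ℝ)| * R ^ i with hg
  have hfin := (finite_words n (n * (n + 1) / 2)).image g
  obtain ⟨C, hC⟩ := hfin.bddAbove
  refine ⟨max C 1, lt_of_lt_of_le one_pos (le_max_right _ _), fun z hz D => ?_⟩
  refine (norm_aeval_le _ hz).trans (le_trans ?_ (le_max_left _ _))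
  exact hC ⟨nf n D, ⟨nf_length_le n D, fun a ha => mem_nf ha⟩, rfl⟩

/-- the loss in terms of the angle -/
theorem del_ge (z : ℂ) : (‖z‖ ^ 2 - (z ^ 2).re) / (‖z‖ ^ 2 + 1) ≤ del z := by
  unfold del
  rw [div_le_iff₀ (by positivity)]
  set ρ := ‖z‖ ^ 2 with hρ
  set x := ‖z ^ 2 + 1‖ with hx
  have h0 : 0 ≤ ρ := by positivity
  have h1 : x ^ 2 = ρ ^ 2 + 2 * (z ^ 2).re + 1 := by
    rw [hx, ← Complex.normSq_eq_norm_sq, Complex.normSq_add, Complex.normSq_eq_norm_sq, norm_pow,
      ← hρ]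
    simp
    ring
  have hx0 : 0 ≤ x := norm_nonneg _
  have h2 : (z ^ 2).re ≤ ρ := by
    have := Complex.re_le_norm (z ^ 2)
    rwa [norm_pow] at this
  have h3 : x ≤ ρ + 1 := by
    have : x ^ 2 ≤ (ρ + 1) ^ 2 := by nlinarith
    exact le_of_sq_le_sq this (by positivity)
  nlinarith

/-- **Tail bound.** -/
theorem markov_tail (h : Mk G s N) (n : ℕ) {ρ₀ R : ℝ} (hρ₀ : 0 < ρ₀) :
    ∃ c : ℝ, 0 < c ∧ ∃ C : ℝ, 0 < C ∧ ∀ w : List ℕ, (∀ i ∈ w, i < n) → ∀ (z : ℂ) (a : ℝ),
      0 < a → a ^ 2 = ‖z‖ * a + 1 → ρ₀ ≤ ‖z‖ → ‖z‖ ≤ R →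
      ‖aeval z (N n (V (s n) w))‖ ≤
        C * a ^ w.length * Real.exp (-(c * w.length * (1 - (z ^ 2).re / ‖z‖ ^ 2))) := by
  obtain ⟨C, hC, hCb⟩ := base_bound s N n R
  rcases lt_or_ge R ρ₀ with hR | hR
  · exact ⟨1, one_pos, 1, one_pos, fun w hw z a ha h2 h3 h4 => absurd (h3.trans h4) (not_le.2 hR)⟩
  have hR0 : 0 < R := hρ₀.trans_le hR
  set c₁ := (ρ₀ / (R + 1)) ^ L0 n * (ρ₀ ^ 2 / ((R ^ 2 + 1) * (R + 1) ^ 2)) with hc₁
  have hc₁0 : 0 < c₁ := by positivity
  have hL : (0 : ℝ) < L0 n := by exact_mod_cast L0_pos n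
  refine ⟨c₁ / L0 n, by positivity, C * Real.exp 1, by positivity, ?_⟩
  intro w hw z a ha h2 hz1 hz2
  have hz0 : 0 < ‖z‖ := hρ₀.trans_le hz1
  set g := gain z a (L0 n) with hg
  set Z := 1 - (z ^ 2).re / ‖z‖ ^ 2 with hZ
  have hZ0 : 0 ≤ Z := by
    have := Complex.re_le_norm (z ^ 2)
    rw [norm_pow] at this
    have : (z ^ 2).re / ‖z‖ ^ 2 ≤ 1 := by
      rw [div_le_one (by positivity)]; exact this
    linarith
  -- lower bound for the gain
  have ha1 : a ≤ R + 1 := by
    by_contra hcon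
    push Not at hcon
    nlinarith
  have hg1 : c₁ * Z ≤ g := by
    have e1 : (‖z‖ ^ 2 - (z ^ 2).re) = ‖z‖ ^ 2 * Z := by
      rw [hZ]; field_simp
    have d1 := del_ge z
    rw [e1] at d1
    have d2 : ρ₀ ^ 2 / (R ^ 2 + 1) * Z ≤ del z := by
      refine le_trans ?_ d1
      rw [mul_div_right_comm]
      refine mul_le_mul_of_nonneg_right ?_ hZ0
      rw [div_le_div_iff₀ (by positivity) (by positivity)]
      have q1 : ρ₀ ^ 2 ≤ ‖z‖ ^ 2 := pow_le_pow_left₀ hρ₀.le hz1 2
      have q2 : ‖z‖ ^ 2 ≤ R ^ 2 := pow_le_pow_left₀ (norm_nonneg _) hz2 2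
      nlinarith [mul_nonneg (sub_nonneg.2 q1) (sq_nonneg R), mul_nonneg (sub_nonneg.2 q2) (sq_nonneg ρ₀)]
    have d3 : ρ₀ / (R + 1) ≤ ‖z‖ / a := by
      rw [div_le_div_iff₀ (by positivity) ha]
      nlinarith
    have d4 : ρ₀ ^ 2 / ((R ^ 2 + 1) * (R + 1) ^ 2) * Z ≤ del z / a ^ 2 := by
      rw [le_div_iff₀ (by positivity)]
      refine le_trans ?_ d2
      have : a ^ 2 ≤ (R + 1) ^ 2 := pow_le_pow_left₀ ha.le ha1 2
      have e2 : ρ₀ ^ 2 / ((R ^ 2 + 1) * (R + 1) ^ 2) * Z * a ^ 2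
          = ρ₀ ^ 2 / (R ^ 2 + 1) * Z * (a ^ 2 / (R + 1) ^ 2) := by
        field_simp
      rw [e2]
      have : a ^ 2 / (R + 1) ^ 2 ≤ 1 := by rw [div_le_one (by positivity)]; exact this
      exact mul_le_of_le_one_right (by positivity) this
    rw [hg, gain, hc₁, mul_assoc]
    refine mul_le_mul (pow_le_pow_left₀ (by positivity) d3 _) d4 (by positivity) (by positivity)
  have hg0 : 0 ≤ g := gain_nonneg ha _
  have hgle : g ≤ 1 := gain_le_one ha h2 _
  -- the bound
  set k := w.length / L0 n with hk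
  have hf : Bnd n a C (Fz s N n z []) := by
    intro D _
    have h3 := hCb z hz2 D
    unfold Fz
    rw [List.append_nil]
    refine h3.trans ?_
    have : 1 ≤ a ^ len n D := one_le_pow₀ (a_ge ha h2)
    nlinarith
  have h3 := windows ha h2 hC.le hf k w hw (Nat.div_mul_le_self _ _) _ (dis_id n)
  rw [len_id, pow_zero, mul_one, ← Fz_eq h z [] w hw _ (dis_id n)] at h3
  have e4 : Fz s N n z (w ++ []) (fun j => j) = aeval z (N n (V (s n) w)) := by
    unfold Fz
    rw [nf_mono n (fun i _ => by omega), List.nil_append, List.append_nil]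
  rw [e4] at h3
  refine h3.trans ?_
  have h5 : (1 - g) ^ k ≤ Real.exp 1 * Real.exp (-(c₁ / L0 n * w.length * Z)) := by
    have p1 : (1 - g) ^ k ≤ Real.exp (-(g * k)) := by
      have := pow_le_pow_left₀ (by linarith : 0 ≤ 1 - g) (Real.one_sub_le_exp_neg g) k
      rw [← Real.exp_nat_mul] at this
      refine this.trans (le_of_eq ?_)
      congr 1; ring
    refine p1.trans ?_
    rw [← Real.exp_add]
    apply Real.exp_le_exp.2
    have p2 : (w.length : ℝ) / L0 n ≤ k + 1 := by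
      rw [div_le_iff₀ hL]
      have : w.length < (k + 1) * L0 n := by
        have q1 := Nat.div_add_mod w.length (L0 n)
        have q2 := Nat.mod_lt w.length (L0_pos n)
        rw [← hk] at q1
        have q3 : (k + 1) * L0 n = L0 n * k + L0 n := by ring
        omega
      exact_mod_cast this.le
    have p3 : c₁ / L0 n * w.length * Z = c₁ * Z * (w.length / L0 n) := by ring
    rw [p3]
    have p4 : c₁ * Z * (w.length / L0 n) ≤ g * (w.length / L0 n) :=
      mul_le_mul_of_nonneg_right hg1 (by positivity)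
    have p5 : g * (w.length / L0 n) ≤ g * (k + 1) := mul_le_mul_of_nonneg_left p2 hg0
    linarith
  have h6 : 0 ≤ a ^ w.length * C := by positivity
  refine (mul_le_mul_of_nonneg_right h5 h6).trans (le_of_eq ?_)
  ring

end

end Pool.Agent.Helper29.EV
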