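import Pool.Agent.Helper29.EV.Tail
import Pool.Agent.Helper43.EV.Iface

/-!
# The interface statement `Tail`
-/

set_option autoImplicit false

namespace Pool.Agent.Helper29.EV

open Pool.Agent.Helper76.Conway.Top Polynomial

/-- **[M]** the tail bound in the form of the interface -/
theorem tail {G : ℕ → Type} [∀ n, Group (G n)] {sg : ∀ n, ℕ → G n} {N : ∀ n, G n → ℤ[X]}
    (h : Mk G sg N) : Pool.Agent.Helper43.EV.Tail sg N := by
  intro n ρ0 ρ1 hρ0
  obtain ⟨c, hc, C, hC, H⟩ := markov_tail h n (R := ρ1) hρ0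
  refine ⟨c, hc, C, hC, fun w hw x θ h1 h2 => ?_⟩
  have hs : 0 < 2 * Real.sinh x := hρ0.trans_le h1
  have hnorm : ‖((2 * Real.sinh x : ℝ) : ℂ) * Complex.exp (θ / 2 * Complex.I)‖
      = 2 * Real.sinh x := by
    rw [norm_mul, Complex.norm_real, Real.norm_of_nonneg hs.le]
    have : (θ / 2 * Complex.I : ℂ) = ((θ / 2 : ℝ) : ℂ) * Complex.I := by push_cast; ring
    rw [this, Complex.norm_exp_ofReal_mul_I, mul_one]
  have ha : Real.exp x ^ 2 = 2 * Real.sinh x * Real.exp x + 1 := by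
    rw [Real.sinh_eq]
    have : Real.exp (-x) * Real.exp x = 1 := by rw [← Real.exp_add]; simp
    nlinarith
  have hz2 : ((((2 * Real.sinh x : ℝ) : ℂ) * Complex.exp (θ / 2 * Complex.I)) ^ 2).re
      = (2 * Real.sinh x) ^ 2 * Real.cos θ := by
    rw [mul_pow, ← Complex.exp_nat_mul]
    have e : ((2 : ℕ) : ℂ) * (θ / 2 * Complex.I) = (θ : ℂ) * Complex.I := by push_cast; ring
    rw [e, ← Complex.ofReal_pow, Complex.re_ofReal_mul, Complex.exp_ofReal_mul_I_re]
  have := H w hw (((2 * Real.sinh x : ℝ) : ℂ) * Complex.exp (θ / 2 * Complex.I)) (Real.exp x)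
    (Real.exp_pos x) (by rw [hnorm]; exact ha) (by rw [hnorm]; exact h1) (by rw [hnorm]; exact h2)
  rw [hnorm, hz2] at this
  refine this.trans (le_of_eq ?_)
  have e1 : (2 * Real.sinh x) ^ 2 * Real.cos θ / (2 * Real.sinh x) ^ 2 = Real.cos θ :=
    mul_div_cancel_left₀ _ (by positivity)
  rw [e1, ← Real.exp_nat_mul]
  ring

end Pool.Agent.Helper29.EV
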